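import Mathlib

set_option autoImplicit false
open scoped Pointwise

namespace Pool.Agent.H.MP_055c61_al

variable {G Ω : Type*} [Group G] [MulAction G Ω] [FaithfulSMul G Ω] {p : ℕ} [Fact p.Prime]

lemma fin_fix {Δ : Set Ω} (h : Δ.Finite) : Finite (fixingSubgroup G Δᶜ) := by
  haveI := h.to_subtype
  have key : ∀ (g : fixingSubgroup G Δᶜ) (x : Δ), g.1 • x.1 ∈ Δ := by
    intro g x
    by_contra hx
    have := (mem_fixingSubgroup_iff G).1 g.2 _ hx
    rw [smul_left_cancel_iff] at this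
    exact hx (by rw [this]; exact x.2)
  refine Finite.of_injective (fun g x => (⟨_, key g x⟩ : Δ)) fun g g' e =>
    Subtype.ext (FaithfulSMul.eq_of_smul_eq_smul (α := Ω) fun x => ?_)
  by_cases hx : x ∈ Δ
  · exact congrArg Subtype.val (congrFun e ⟨x, hx⟩)
  · rw [(mem_fixingSubgroup_iff G).1 g.2 _ hx, (mem_fixingSubgroup_iff G).1 g'.2 _ hx]

lemma orbit_sub (hfin : ∀ g : G, {x : Ω | g • x ≠ x}.Finite) {C : Set G} (hC : C.Finite)
    (hp : IsPGroup p (Subgroup.closure C)) (x0 : Ω) :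
    (∀ n ∈ Subgroup.closure C, n • x0 = x0) ∨
      ∃ c ∈ C, ∀ n ∈ Subgroup.closure C, c • n • x0 ≠ n • x0 := by
  haveI := fin_fix (G := G) (hC.biUnion fun c _ => hfin c)
  haveI : Finite (Subgroup.closure C) := by
    have : Subgroup.closure C ≤ fixingSubgroup G (⋃ c ∈ C, {x : Ω | c • x ≠ x})ᶜ :=
      (Subgroup.closure_le _).2 fun c hc => (mem_fixingSubgroup_iff G).2 fun y hy => by
        by_contra h
        exact hy (Set.mem_biUnion hc h)
    exact Finite.of_injective _ (Subgroup.inclusion_injective this)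
  rcases eq_top_or_exists_le_coatom (MulAction.stabilizer (Subgroup.closure C) x0) with
    h | ⟨M, hM, h⟩
  · exact Or.inl fun n hn => (h ▸ Subgroup.mem_top (⟨n, hn⟩ : Subgroup.closure C) :
      _ ∈ MulAction.stabilizer (Subgroup.closure C) x0)
  haveI := hp.isNilpotent
  have hN := Subgroup.NormalizerCondition.normal_of_coatom M
    Group.normalizerCondition_of_isNilpotent hM
  right
  by_contra hc
  push Not at hc
  refine hM.1 (eq_top_iff.2 ?_)
  rw [← Subgroup.closure_preimage_eq_top, Subgroup.closure_le]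
  intro c hc'
  obtain ⟨n, hn, e⟩ := hc c.1 hc'
  refine (hN.mem_comm_iff (a := ⟨n, hn⟩) (b := (⟨n, hn⟩ : Subgroup.closure C)⁻¹ * c)).2 (h ?_) |>
    fun h => by simpa using h
  change ((n⁻¹ * c.1) * n) • x0 = x0
  rw [mul_smul, mul_smul, e, inv_smul_smul]

lemma block (hfin : ∀ g : G, {x : Ω | g • x ≠ x}.Finite) {S : Subgroup G} (hS : IsPGroup p S)
    (htr : ∀ x y : Ω, ∃ s ∈ S, s • x = y) (x0 : Ω) {F : Set Ω} (hF : F.Finite) :
    ∃ Δ : Set Ω, Δ.Finite ∧ x0 ∈ Δ ∧ F ⊆ Δ ∧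
      ∀ s ∈ S, (∃ x ∈ Δ, s • x ∈ Δ) → ∀ x, s • x ∈ Δ ↔ x ∈ Δ := by
  classical
  choose a ha1 ha2 using htr x0
  obtain ⟨m, hm⟩ := (hF.image fun y => {x : Ω | a y • x ≠ x}.ncard).bddAbove
  set C : Set G := {c | ∃ s ∈ S, ∃ y ∈ F, c = s * a y * s⁻¹} with hC
  have CS : Subgroup.closure C ≤ S := (Subgroup.closure_le _).2 (by
    rintro _ ⟨s, hs, y, -, rfl⟩
    exact mul_mem (mul_mem hs (ha1 y)) (inv_mem hs))
  have Cm : ∀ c ∈ C, {x : Ω | c • x ≠ x}.ncard ≤ m := by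
    rintro _ ⟨s, hs, y, hy, rfl⟩
    refine le_trans (Set.ncard_le_ncard_of_injOn (t := {x : Ω | a y • x ≠ x}) (fun x => s⁻¹ • x)
      (fun x hx (h : a y • s⁻¹ • x = s⁻¹ • x) => hx ?_)
      (MulAction.injective _).injOn (hfin _)) (hm ⟨y, hy, rfl⟩)
    rw [mul_smul, mul_smul, h, smul_inv_smul]
  have nrm : ∀ s ∈ S, ∀ n ∈ Subgroup.closure C, s * n * s⁻¹ ∈ Subgroup.closure C := by
    intro s hs n hn
    have : Subgroup.closure C ≤ (Subgroup.closure C).comap (MulAut.conj s).toMonoidHom :=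
      (Subgroup.closure_le _).2 (by
        rintro _ ⟨t, ht, y, hy, rfl⟩
        exact Subgroup.subset_closure ⟨s * t, mul_mem hs ht, y, hy, by simp [mul_assoc]⟩)
    exact this hn
  have half : ∀ s ∈ S, (∃ x ∈ {x | ∃ n ∈ Subgroup.closure C, n • x0 = x},
      s • x ∈ {x | ∃ n ∈ Subgroup.closure C, n • x0 = x}) →
      ∀ x ∈ {x | ∃ n ∈ Subgroup.closure C, n • x0 = x},
        s • x ∈ {x | ∃ n ∈ Subgroup.closure C, n • x0 = x} := by
    rintro s hs ⟨_, ⟨n1, h1, rfl⟩, n2, h2, e⟩ _ ⟨n, hn, rfl⟩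
    exact ⟨_, mul_mem (nrm s hs _ (mul_mem hn (inv_mem h1))) h2, by simp [mul_smul, e]⟩
  refine ⟨{x | ∃ n ∈ Subgroup.closure C, n • x0 = x}, ?_, ⟨1, one_mem _, one_smul _ _⟩,
    fun y hy => ⟨a y, Subgroup.subset_closure ⟨1, one_mem _, y, hy, by simp⟩, ha2 y⟩,
    fun s hs h x => ⟨fun hx => ?_, half s hs h x⟩⟩
  · by_contra hinf
    obtain ⟨B, h1, h2⟩ := Set.Infinite.exists_subset_card_eq hinf (m + 2)
    have fs : ∀ n ∈ Subgroup.closure C, ∃ C' ⊆ C, C'.Finite ∧ n ∈ Subgroup.closure C' := by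
      intro n hn
      induction hn using Subgroup.closure_induction with
      | mem x hx => exact ⟨{x}, by simpa, by simp, Subgroup.subset_closure rfl⟩
      | one => exact ⟨∅, by simp, by simp, one_mem _⟩
      | mul x y _ _ hx hy =>
        obtain ⟨C1, a1, a2, a3⟩ := hx
        obtain ⟨C2, b1, b2, b3⟩ := hy
        exact ⟨C1 ∪ C2, Set.union_subset a1 b1, a2.union b2,
          mul_mem (Subgroup.closure_mono Set.subset_union_left a3)
            (Subgroup.closure_mono Set.subset_union_right b3)⟩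
      | inv x _ hx =>
        obtain ⟨C1, a1, a2, a3⟩ := hx
        exact ⟨C1, a1, a2, inv_mem a3⟩
    replace h1 : ∀ y ∈ B, ∃ n ∈ Subgroup.closure C, n • x0 = y := fun y hy => h1 hy
    choose! n hn1 hn2 using h1
    choose! C' c1 c2 c3 using fs
    have sub : (⋃ y ∈ B, C' (n y)) ⊆ C := Set.iUnion₂_subset fun y hy => c1 _ (hn1 y hy)
    have mem : ∀ y ∈ B, n y ∈ Subgroup.closure (⋃ y ∈ B, C' (n y)) := fun y hy =>
      Subgroup.closure_mono (Set.subset_biUnion_of_mem (u := fun y => C' (n y)) hy) (c3 _ (hn1 y hy))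
    rcases orbit_sub hfin (B.finite_toSet.biUnion fun y hy => c2 _ (hn1 y hy))
      (hS.to_le ((Subgroup.closure_mono sub).trans CS)) x0 with h | ⟨c, hc, h⟩
    · have : B ⊆ {x0} := fun y hy => by rw [← hn2 y hy, h _ (mem y hy)]; simp
      have := Finset.card_le_card this
      simp at this; omega
    · have : (B : Set Ω) ⊆ {x : Ω | c • x ≠ x} := fun y hy => by
        have := h _ (mem y hy)
        rwa [hn2 y hy] at this
      have := (Set.ncard_le_ncard this (hfin c)).trans (Cm c (sub hc))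
      rw [Set.ncard_coe_finset] at this; omega
  · obtain ⟨y, h1, h2⟩ := h
    simpa using half s⁻¹ (inv_mem hs) ⟨_, h2, by simpa using h1⟩ _ hx

theorem good (hfin : ∀ g : G, {x : Ω | g • x ≠ x}.Finite) (S : Sylow p G)
    (htr : ∀ x y : Ω, ∃ s ∈ (S : Subgroup G), s • x = y) (g : G) :
    ∃ K : Subgroup G, Finite K ∧ g ∈ K ∧
      ∃ P : Sylow p K, (P : Subgroup K) = (S : Subgroup G).subgroupOf K := by
  rcases isEmpty_or_nonempty Ω with h | ⟨⟨x0⟩⟩
  · haveI : Subsingleton G := ⟨fun a b => FaithfulSMul.eq_of_smul_eq_smul (α := Ω) h.elim⟩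
    exact ⟨⊤, inferInstance, trivial, default, Subsingleton.elim _ _⟩
  obtain ⟨Δ, h1, h2, h3, h4⟩ := block hfin S.isPGroup' htr x0 (hfin g)
  set K := fixingSubgroup G Δᶜ with hK
  haveI : Finite K := fin_fix h1
  have mK : ∀ k, k ∈ K ↔ ∀ y ∉ Δ, k • y = y := fun k => mem_fixingSubgroup_iff G
  have kΔ : ∀ k ∈ K, ∀ x ∈ Δ, k • x ∈ Δ := fun k hk x hx => by
    by_contra h
    have := (mK k).1 hk _ h
    rw [smul_left_cancel_iff] at this
    exact h (this.symm ▸ hx)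
  let T : Subgroup G := (S : Subgroup G) ⊓ Subgroup.normalizer K
  have hT : ∀ s ∈ (S : Subgroup G), (∃ x ∈ Δ, s • x ∈ Δ) → s ∈ T := by
    refine fun s hs h => ⟨hs, fun k => ⟨fun hk => (mK _).2 fun y hy => ?_,
      fun hk => (mK _).2 fun y hy => ?_⟩⟩
    · rw [mul_smul, mul_smul, (mK k).1 hk, smul_inv_smul]
      rwa [← h4 s hs h, smul_inv_smul]
    · have := (mK _).1 hk (s • y) (by rwa [h4 s hs h])
      rwa [mul_smul, mul_smul, inv_smul_smul, smul_left_cancel_iff] at this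
  letI : MulAction T (Sylow p K) :=
    MulAction.compHom _ (K.normalizerMonoidHom.comp (Subgroup.inclusion inf_le_right))
  obtain ⟨P, hP⟩ := (S.isPGroup'.to_inf_left : IsPGroup p T).nonempty_fixed_point_of_prime_not_dvd_card
    (Sylow p K) (not_dvd_card_sylow p K)
  have inv : ∀ s ∈ T, ∀ a ∈ (P : Subgroup K).map K.subtype,
      s * a * s⁻¹ ∈ (P : Subgroup K).map K.subtype := by
    rintro s hs _ ⟨a, ha, rfl⟩
    have e : K.normalizerMonoidHom ⟨s, hs.2⟩ • P = P := hP ⟨s, hs⟩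
    refine ⟨K.normalizerMonoidHom ⟨s, hs.2⟩ a, ?_, rfl⟩
    rw [← e, Sylow.pointwise_smul_def]
    exact Subgroup.smul_mem_pointwise_smul _ _ _ ha
  set P' := (P : Subgroup K).map K.subtype with hP'
  have PK : P' ≤ K := Subgroup.map_subtype_le _
  let D : Subgroup G :=
    { carrier := {d | ∀ s ∈ (S : Subgroup G), ∃ a ∈ P', ∀ x ∈ Δ, d • s • x = s • a • x}
      one_mem' := fun s _ => ⟨1, one_mem _, by simp⟩
      mul_mem' := fun {d d'} hd hd' s hs => by
        obtain ⟨a, a1, a2⟩ := hd s hs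
        obtain ⟨b, b1, b2⟩ := hd' s hs
        exact ⟨a * b, mul_mem a1 b1, fun x hx => by
          rw [mul_smul, b2 x hx, a2 _ (kΔ b (PK b1) x hx), mul_smul]⟩
      inv_mem' := fun {d} hd s hs => by
        obtain ⟨a, a1, a2⟩ := hd s hs
        exact ⟨a⁻¹, inv_mem a1, fun x hx => by
          rw [inv_smul_eq_iff, a2 _ (kΔ _ (PK (inv_mem a1)) x hx), smul_inv_smul]⟩ }
  have PD : P' ≤ D := by
    intro a ha s hs
    by_cases h : ∃ x ∈ Δ, s • x ∈ Δ
    · exact ⟨_, inv s⁻¹ (inv_mem (hT s hs h)) a ha, fun x _ => by simp [mul_smul]⟩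
    · exact ⟨1, one_mem _, fun x hx => by
        rw [one_smul, (mK a).1 (PK ha) _ fun h' => h ⟨x, hx, h'⟩]⟩
  have Dp : IsPGroup p D := by
    haveI : Finite P' := Finite.of_injective _ (Subgroup.inclusion_injective PK)
    obtain ⟨k, hk⟩ := (IsPGroup.iff_card (G := P')).1 (P.isPGroup'.map K.subtype)
    refine fun d => ⟨k, Subtype.ext (FaithfulSMul.eq_of_smul_eq_smul (α := Ω) fun y => ?_)⟩
    obtain ⟨s, hs, rfl⟩ := htr x0 y
    obtain ⟨a, a1, a2⟩ := d.2 s hs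
    have : ∀ n : ℕ, d.1 ^ n • s • x0 = s • a ^ n • x0 := fun n => by
      induction n with
      | zero => simp
      | succ n ih =>
        rw [pow_succ', mul_smul, ih, a2 _ (kΔ _ (PK (pow_mem a1 n)) _ h2), pow_succ', mul_smul]
    have e : a ^ p ^ k = 1 := by
      rw [← hk]; exact congrArg Subtype.val (pow_card_eq_one' (x := (⟨a, a1⟩ : P')))
    simp [this, e]
  have nD : ∀ s ∈ (S : Subgroup G), ∀ d ∈ D, s * d * s⁻¹ ∈ D := fun s hs d hd t ht => by
    obtain ⟨a, a1, a2⟩ := hd (s⁻¹ * t) (mul_mem (inv_mem hs) ht)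
    exact ⟨a, a1, fun x hx => by simpa [mul_smul, eq_inv_smul_iff] using a2 x hx⟩
  have SD : (S : Subgroup G) ≤ Subgroup.normalizer D := fun s hs d =>
    ⟨nD s hs d, fun h => by simpa [mul_assoc] using nD s⁻¹ (inv_mem hs) _ h⟩
  have := S.is_maximal' (S.isPGroup'.to_sup_of_normal_right' Dp SD) le_sup_left
  refine ⟨K, inferInstance, (mK g).2 fun y hy => by_contra fun h => hy (h3 h), P,
    (P.is_maximal' S.isPGroup'.comap_subtype fun a ha => ?_).symm⟩
  exact this ▸ (le_sup_right : D ≤ (S : Subgroup G) ⊔ D) (PD ⟨a, ha, rfl⟩)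

theorem q1 (hfin : ∀ g : G, {x : Ω | g • x ≠ x}.Finite) (S : Sylow p G)
    (htr : ∀ x y : Ω, ∃ s ∈ (S : Subgroup G), s • x = y) (N : Subgroup G) [hN : N.Normal] :
    ∃ T : Sylow p N, (T : Subgroup N) = (S : Subgroup G).subgroupOf N := by
  refine ⟨⟨_, S.isPGroup'.comap_subtype, fun {Q} hQ hle => le_antisymm (fun g hg => ?_) hle⟩, rfl⟩
  obtain ⟨K, _, hg', P, hP⟩ := good hfin S htr g.1
  obtain ⟨R, hR⟩ := ((hQ.map N.subtype).comap_subtype (K := K)).exists_le_sylow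
  obtain ⟨k, rfl⟩ := MulAction.exists_smul_eq K P R
  have h1 : (P : Subgroup K) ⊓ N.subgroupOf K ≤ (Q.map N.subtype).comap K.subtype := fun a ha =>
    ⟨⟨a.1, ha.2⟩, hle (show a ∈ (S : Subgroup G).subgroupOf K from hP ▸ ha.1), rfl⟩
  have h2 : (Q.map N.subtype).comap K.subtype ≤
      MulAut.conj k • ((P : Subgroup K) ⊓ N.subgroupOf K) := by
    rw [Subgroup.smul_inf, Subgroup.Normal.conj_smul_eq_self k (N.subgroupOf K)]
    exact le_inf hR fun a ha => Subgroup.map_subtype_le Q ha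
  have h3 := Subgroup.eq_of_le_of_card_ge h1 ((Subgroup.card_le_of_le h2).trans
    (Nat.card_congr (Subgroup.equivSMul _ _).toEquiv).ge)
  have : (⟨g.1, hg'⟩ : K) ∈ (P : Subgroup K) ⊓ N.subgroupOf K := h3 ▸ ⟨g, hg, rfl⟩
  exact (hP ▸ this.1 : (⟨g.1, hg'⟩ : K) ∈ (S : Subgroup G).subgroupOf K)

theorem q2 (hfin : ∀ g : G, {x : Ω | g • x ≠ x}.Finite) (S : Sylow p G)
    (htr : ∀ x y : Ω, ∃ s ∈ (S : Subgroup G), s • x = y) (N : Subgroup G) [hN : N.Normal] :
    ∃ T : Sylow p (G ⧸ N), (T : Subgroup (G ⧸ N)) = (S : Subgroup G).map (QuotientGroup.mk' N) := by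
  refine ⟨⟨_, S.isPGroup'.map _, fun {Q} hQ hle => le_antisymm (fun t ht => ?_) hle⟩, rfl⟩
  obtain ⟨g, rfl⟩ := QuotientGroup.mk'_surjective N t
  obtain ⟨K, _, hg', P, hP⟩ := good hfin S htr g
  let φ := (QuotientGroup.mk' N).comp K.subtype
  have h := (P.mapSurjective φ.rangeRestrict_surjective).is_maximal'
    (hQ.comap_subtype (K := φ.range)) (by
      rintro _ ⟨a, ha, rfl⟩
      exact hle ⟨a.1, (hP ▸ ha : a ∈ (S : Subgroup G).subgroupOf K), rfl⟩)
  obtain ⟨a, ha, e⟩ : φ.rangeRestrict ⟨g, hg'⟩ ∈ (P : Subgroup K).map φ.rangeRestrict := by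
    rw [← Sylow.coe_mapSurjective φ.rangeRestrict_surjective, ← h]; exact ht
  exact ⟨a.1, (hP ▸ ha : a ∈ (S : Subgroup G).subgroupOf K), congrArg Subtype.val e⟩

end Pool.Agent.H.MP_055c61_al
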